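import Mathlib

/-!
# MP_26e61c_ag : claw tree group-based varieties are not cut out by prolongations

Everything is in the full ring `ℂ[q_g : g ∈ G ^ n]`, with the ideals of the problem file.
-/

set_option autoImplicit false

open MvPolynomial

namespace Pool.Agent.Results.MP_26e61c_ag.NotEvenAsSets

/-- The ring map `ℂ[q_g : g ∈ G ^ n] → ℂ[a^e_h]` of a tree with leaves `0, …, n - 1` and edges `e : E`;
`S e` is the set of leaves on the chosen side of the edge `e`. -/
noncomputable def treeMap {G : Type} [AddCommGroup G] {n : ℕ} {E : Type} [Fintype E]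
    (S : E → Finset (Fin n)) : MvPolynomial (Fin n → G) ℂ →ₐ[ℂ] MvPolynomial (E × G) ℂ :=
  open Classical in
  aeval fun g : Fin n → G => if ∑ l, g l = 0 then ∏ e, X (e, ∑ l ∈ S e, g l) else 0

/-- The ideal `I(X(T, G))` of the group-based model. -/
noncomputable def treeIdeal (G : Type) [AddCommGroup G] {n : ℕ} {E : Type} [Fintype E]
    (S : E → Finset (Fin n)) : Ideal (MvPolynomial (Fin n → G) ℂ) :=
  RingHom.ker (treeMap (G := G) S)

/-- The claw tree `K_{1,n}`: one edge for each leaf `i`, with the side `{i}`. -/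
def claw (n : ℕ) : Fin n → Finset (Fin n) := fun i => {i}

/-- The prolongation of `K_{1,n}` for the partition `A ⊔ Aᶜ` of the leaves: the inner edge `uv`
(with the side `A`), and one edge for each leaf `i` (with the side `{i}`). -/
def prolongation {n : ℕ} (A : Finset (Fin n)) : Option (Fin n) → Finset (Fin n)
  | none => A
  | some i => {i}

/-- Both parts of the partition `A ⊔ Aᶜ` are nonempty and the inner vertices `u`, `v`, of degrees
`|A| + 1` and `|Aᶜ| + 1`, have degree at most `n - 1`. -/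
def Admissible {n : ℕ} (A : Finset (Fin n)) : Prop :=
  A.Nonempty ∧ Aᶜ.Nonempty ∧ A.card + 1 ≤ n - 1 ∧ Aᶜ.card + 1 ≤ n - 1

/-- The sum of the ideals `I(X(T, G))` over all prolongations `T` of `K_{1,n}` in which every
vertex has degree at most `n - 1`. -/
noncomputable def prolongationSum (G : Type) [AddCommGroup G] (n : ℕ) :
    Ideal (MvPolynomial (Fin n → G) ℂ) :=
  ⨆ A : {A : Finset (Fin n) // Admissible A}, treeIdeal G (prolongation A.1)

/-- The saturation of the ideal `I` with respect to the irrelevant ideal `(q_g : g ∈ G ^ n)`. -/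
def saturation {G : Type} {n : ℕ} (I : Ideal (MvPolynomial (Fin n → G) ℂ)) :
    Set (MvPolynomial (Fin n → G) ℂ) :=
  {f | ∃ k : ℕ, ∀ h ∈ (Ideal.span (Set.range
    (X : (Fin n → G) → MvPolynomial (Fin n → G) ℂ))) ^ k, h * f ∈ I}

/-- Allowed coordinates of the point. -/
def supp (i : Fin 4) : List (ZMod 12) :=
  match i with
  | 0 => [0, 1, 3]
  | 1 => [0, 4, 1]
  | 2 => [0, 10, 4]
  | 3 => [0, 9, 4]

/-- Parameters of the point as a point of the prolongation `A`. -/
def par (A : Finset (Fin 4)) (p : Option (Fin 4) × ZMod 12) : ℕ :=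
  match p with
  | (none, h) =>
      if A = {0, 1} then (if h = 5 then 2 else 1)
      else if A = {2, 3} then (if h = 7 then 2 else 1)
      else if A = {0, 2} then (if h = 0 then 2 else 1)
      else if A = {1, 3} then (if h = 0 then 2 else 1)
      else if A = {0, 3} then (if h = 10 then 2 else 1)
      else (if h = 2 then 2 else 1)
  | (some i, h) =>
      if h ∈ supp i then
        (if (A = {0, 2} ∨ A = {1, 3}) then (if i = 2 ∧ h = 10 then 2 else 1)
         else (if i = 3 ∧ h = 0 then 2 else 1))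
      else 0

/-- The point (as natural numbers, on the zero-sum `g`). -/
def pt (g : Fin 4 → ZMod 12) : ℕ :=
  par {0, 1} (none, ∑ i ∈ ({0, 1} : Finset (Fin 4)), g i) * ∏ i, par {0, 1} (some i, g i)

theorem key : ∀ A : Finset (Fin 4), A.card = 2 → ∀ a b c : ZMod 12,
    par A (none, ∑ i ∈ A, (![a, b, c, -(a + b + c)] : Fin 4 → ZMod 12) i) *
      ∏ i, par A (some i, (![a, b, c, -(a + b + c)] : Fin 4 → ZMod 12) i) =
    pt ![a, b, c, -(a + b + c)] := by
  decide +kernel

theorem key' (A : Finset (Fin 4)) (hA : A.card = 2) (g : Fin 4 → ZMod 12)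
    (hg : ∑ i, g i = 0) :
    par A (none, ∑ i ∈ A, g i) * ∏ i, par A (some i, g i) = pt g := by
  have h := key A hA (g 0) (g 1) (g 2)
  have e : (![g 0, g 1, g 2, -(g 0 + g 1 + g 2)] : Fin 4 → ZMod 12) = g := by
    funext i
    rw [Fin.sum_univ_four] at hg
    fin_cases i
    · rfl
    · rfl
    · rfl
    · show -(g 0 + g 1 + g 2) = g 3
      exact neg_eq_of_add_eq_zero_right hg
  rw [e] at h
  exact h

def s1 : Fin 4 → ZMod 12 := ![0, 0, 0, 0]
def s2 : Fin 4 → ZMod 12 := ![1, 4, 10, 9]
def s3 : Fin 4 → ZMod 12 := ![3, 1, 4, 4]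
def r1 : Fin 4 → ZMod 12 := ![1, 1, 10, 0]
def r2 : Fin 4 → ZMod 12 := ![3, 0, 0, 9]
def r3 : Fin 4 → ZMod 12 := ![0, 4, 4, 4]

theorem pt_s1 : pt s1 = 2 := by decide +kernel
theorem pt_s2 : pt s2 = 2 := by decide +kernel
theorem pt_s3 : pt s3 = 1 := by decide +kernel
theorem pt_r1 : pt r1 = 2 := by decide +kernel
theorem pt_r2 : pt r2 = 1 := by decide +kernel
theorem pt_r3 : pt r3 = 1 := by decide +kernel

theorem sum_s1 : ∑ l, s1 l = 0 := by decide +kernel
theorem sum_s2 : ∑ l, s2 l = 0 := by decide +kernel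
theorem sum_s3 : ∑ l, s3 l = 0 := by decide +kernel
theorem sum_r1 : ∑ l, r1 l = 0 := by decide +kernel
theorem sum_r2 : ∑ l, r2 l = 0 := by decide +kernel
theorem sum_r3 : ∑ l, r3 l = 0 := by decide +kernel

open Classical in
/-- The point in `ℂ ^ (G ^ 4)`. -/
noncomputable def x (g : Fin 4 → ZMod 12) : ℂ := if ∑ l, g l = 0 then (pt g : ℂ) else 0

/-- The cubic binomial. -/
noncomputable def f : MvPolynomial (Fin 4 → ZMod 12) ℂ := X s1 * X s2 * X s3 - X r1 * X r2 * X r3

theorem f_hom : f.IsHomogeneous 3 := by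
  unfold f
  apply IsHomogeneous.sub
  · exact ((isHomogeneous_X ℂ s1).mul (isHomogeneous_X ℂ s2)).mul (isHomogeneous_X ℂ s3)
  · exact ((isHomogeneous_X ℂ r1).mul (isHomogeneous_X ℂ r2)).mul (isHomogeneous_X ℂ r3)

theorem claw_X (g : Fin 4 → ZMod 12) (hg : ∑ l, g l = 0) :
    treeMap (G := ZMod 12) (claw 4) (X g) =
      X (0, g 0) * X (1, g 1) * X (2, g 2) * X (3, g 3) := by
  rw [treeMap, aeval_X, if_pos hg, Fin.prod_univ_four]
  simp only [claw, Finset.sum_singleton]

theorem f_mem : f ∈ treeIdeal (ZMod 12) (claw 4) := by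
  rw [treeIdeal, RingHom.mem_ker]
  change treeMap (G := ZMod 12) (claw 4) f = 0
  rw [f, map_sub, map_mul, map_mul, map_mul, map_mul, claw_X _ sum_s1, claw_X _ sum_s2,
    claw_X _ sum_s3, claw_X _ sum_r1, claw_X _ sum_r2, claw_X _ sum_r3]
  simp only [s1, s2, s3, r1, r2, r3, Matrix.cons_val_zero, Matrix.cons_val_one, Matrix.cons_val]
  ring

theorem eval_f : eval x f = 2 := by
  simp only [f, x, map_sub, map_mul, eval_X, sum_s1, sum_s2, sum_s3, sum_r1, sum_r2, sum_r3,
    if_true, pt_s1, pt_s2, pt_s3, pt_r1, pt_r2, pt_r3]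
  norm_num

theorem eval_prol (A : Finset (Fin 4)) (hA : A.card = 2) (p : MvPolynomial (Fin 4 → ZMod 12) ℂ)
    (hp : p ∈ treeIdeal (ZMod 12) (prolongation A)) : eval x p = 0 := by
  rw [treeIdeal, RingHom.mem_ker] at hp
  have hcomp : (aeval x : MvPolynomial (Fin 4 → ZMod 12) ℂ →ₐ[ℂ] ℂ) =
      (aeval (R := ℂ) (fun q : Option (Fin 4) × ZMod 12 => ((par A q : ℕ) : ℂ))).comp
        (treeMap (G := ZMod 12) (prolongation A)) := by
    apply MvPolynomial.algHom_ext
    intro g
    simp only [treeMap, aeval_X, AlgHom.comp_apply, x]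
    split_ifs with hg
    · rw [← key' A hA g hg, map_prod, Fintype.prod_option]
      simp only [aeval_X, prolongation, Finset.sum_singleton]
      push_cast
      rfl
    · simp
  rw [← coe_aeval_eq_eval]
  change (aeval x : MvPolynomial (Fin 4 → ZMod 12) ℂ →ₐ[ℂ] ℂ) p = 0
  rw [hcomp, AlgHom.comp_apply]
  have hp' : (treeMap (G := ZMod 12) (prolongation A)) p = 0 := hp
  rw [hp', map_zero]

theorem card_of_admissible (A : Finset (Fin 4)) (hA : Admissible A) : A.card = 2 := by
  obtain ⟨-, -, h1, h2⟩ := hA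
  rw [Finset.card_compl, Fintype.card_fin] at h2
  omega

/-- For `G = ℤ/12` and `n = 4` there is a point of projective space which lies on `X(T, G)` for
every prolongation `T` of the claw `K_{1,4}` in which every vertex has degree at most `3`, but not
on `X(K_{1,4}, G)`. In particular `X(K_{1,4}, G)` is not the scheme-theoretic intersection of the
`X(T, G)`: the saturation of the sum of the ideals `I(X(T, G))` is neither `I(X(K_{1,4}, G))` nor
its saturation. -/
theorem result :
    (∃ x : (Fin 4 → ZMod 12) → ℂ, x ≠ 0 ∧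
      (∀ A : Finset (Fin 4), Admissible A → ∀ p ∈ treeIdeal (ZMod 12) (prolongation A),
        eval x p = 0) ∧
      ∃ f ∈ treeIdeal (ZMod 12) (claw 4), f.IsHomogeneous 3 ∧ eval x f ≠ 0) ∧
    saturation (prolongationSum (ZMod 12) 4) ≠ saturation (treeIdeal (ZMod 12) (claw 4)) ∧
    saturation (prolongationSum (ZMod 12) 4) ≠ (treeIdeal (ZMod 12) (claw 4) : Set _) := by
  have hsat : f ∉ saturation (prolongationSum (ZMod 12) 4) := by
    rintro ⟨k, hk⟩
    have hX : (X s1 : MvPolynomial (Fin 4 → ZMod 12) ℂ) ^ k ∈ (Ideal.span (Set.range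
        (X : (Fin 4 → ZMod 12) → MvPolynomial (Fin 4 → ZMod 12) ℂ))) ^ k :=
      Ideal.pow_mem_pow (Ideal.subset_span (Set.mem_range_self s1)) k
    have h1 := hk _ hX
    have hle : prolongationSum (ZMod 12) 4 ≤ RingHom.ker (eval x) := by
      apply iSup_le
      rintro ⟨A, hA⟩ p hp
      exact eval_prol A (card_of_admissible A hA) p hp
    have h2 := hle h1
    rw [RingHom.mem_ker, map_mul, map_pow, eval_f, eval_X, x, if_pos sum_s1, pt_s1] at h2
    norm_num at h2
  refine ⟨⟨x, ?_, ?_, f, f_mem, f_hom, ?_⟩, ?_, ?_⟩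
  · intro h
    have h1 := congrFun h s1
    rw [x, if_pos sum_s1, pt_s1] at h1
    norm_num at h1
  · intro A hA p hp
    exact eval_prol A (card_of_admissible A hA) p hp
  · rw [eval_f]
    norm_num
  · intro h
    apply hsat
    rw [h]
    exact ⟨0, fun q _ => Ideal.mul_mem_left _ _ f_mem⟩
  · intro h
    apply hsat
    rw [h]
    exact f_mem

end Pool.Agent.Results.MP_26e61c_ag.NotEvenAsSets
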